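import Pool.Agent.H65.NV.PTargets

/-!
# TAD: bounds for the terms of the average over the discriminants
-/

set_option autoImplicit false

open MeasureTheory Set Filter NumberField NumberField.InfinitePlace Pool.Agent.H65.CM4
  Pool.Agent.H61.NVK Pool.Agent.H89.NV Pool.Agent.H65.NV
open scoped Real

namespace Pool.Agent.H46.NVP_TAD

variable (k : Type) [Field k] [NumberField k]

theorem rpow_anti {a b : ℝ} (B : ℕ) (ha : 0 < a) (hab : a ≤ b) :
    b ^ (-(B : ℝ)) ≤ a ^ (-(B : ℝ)) :=
  Real.rpow_le_rpow_of_nonpos ha hab (by simp)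

variable {k} in
theorem nS_ge (h : ∀ P : PrI k, 2 ≤ np P) (S : Finset (PrI k)) : 1 ≤ nS S := by
  unfold nS
  refine Finset.prod_induction _ (fun x : ℝ => 1 ≤ x) (fun a b ha hb => ?_) le_rfl ?_
  · exact one_le_mul_of_one_le_of_one_le ha hb
  · intro P _
    linarith [h P]

/-- admissible weight functions are bounded -/
theorem GW_bd {G : (Pl k → ℝ) → ℝ} {η : ℝ} (h : GW η G) : ∃ C : ℝ, 0 < C ∧ ∀ u, |G u| ≤ C := by
  obtain ⟨C, hC⟩ := (isCompact_Icc (a := fun _ : Pl k => η)
    (b := fun _ : Pl k => 1 / η)).exists_bound_of_continuousOn (f := G)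
    h.smooth.continuous.continuousOn
  refine ⟨max C 1, lt_of_lt_of_le one_pos (le_max_right _ _), fun u => ?_⟩
  by_cases hu : ∃ v, u v ∉ Icc η (1 / η)
  · rw [h.supp u hu, abs_zero]
    exact le_trans zero_le_one (le_max_right _ _)
  · push Not at hu
    have h1 : u ∈ Icc (fun _ : Pl k => η) (fun _ : Pl k => 1 / η) :=
      ⟨fun v => (hu v).1, fun v => (hu v).2⟩
    have := hC u h1
    rw [Real.norm_eq_abs] at this
    exact this.trans (le_max_left _ _)

variable [IsTotallyReal k]

theorem pf_TAD (hDRV : T_DRV k) (hVKF : T_VKF) (hNWB : T_NWB k) (hWTB : T_WTB k)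
    (hRSF : T_RSF k) (hEMS : T_EMS k) (hIDL : T_IDL k) (hEMB : T_EMB k) : T_TAD k := by
  classical
  intro f q G η hf hq hG n K hn
  obtain ⟨j, hj⟩ := hDRV f G η hf hG
  obtain ⟨hcard, hdg, -⟩ := hEMB
  obtain ⟨-, -, -, -, -, -, -, -, hnmni, -, -⟩ := hEMS
  obtain ⟨-, -, -, hnmul, hnm1, hnp, -⟩ := hIDL
  obtain ⟨-, -, -, hV⟩ := hVKF k
  obtain ⟨CG, hCG, hGb⟩ := GW_bd k hG
  refine ⟨j + 8 * dg k + 1, fun B => ?_⟩
  obtain ⟨C1, hC1, h1⟩ := hj 0 B
  obtain ⟨C2, hC2, h2⟩ := hV B
  have hη := hG.pos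
  obtain ⟨c, hc⟩ : ∃ c : ℝ, c = min 1 (Real.sqrt (η ^ dg k)) := ⟨_, rfl⟩
  have hc0 : 0 < c := by
    rw [hc]; exact lt_min one_pos (Real.sqrt_pos.2 (pow_pos hη _))
  have hfn : 1 ≤ nm f := hnm1 f hf
  obtain ⟨C3, hC3⟩ : ∃ C3 : ℝ, C3 = dg k + dg k * |Real.log η| + Real.log (nm f) + 1 + |c0 k| :=
    ⟨_, rfl⟩
  have hC30 : 0 < C3 := by
    rw [hC3]
    have a1 : 0 ≤ Real.log (nm f) := Real.log_nonneg hfn
    have a2 : (0 : ℝ) ≤ dg k * |Real.log η| := by positivity
    have a3 := abs_nonneg (c0 k)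
    have a4 : (0 : ℝ) ≤ dg k := Nat.cast_nonneg _
    linarith
  obtain ⟨CT, hCT⟩ : ∃ CT : ℝ, CT = 2 ^ dg k * (|K| + 1) * C1 * 2 ^ j := ⟨_, rfl⟩
  obtain ⟨CD, hCD⟩ : ∃ CD : ℝ, CD = CG * (C2 * c ^ (-(B : ℝ))) * (|K| + 1) * ((|kp k| + 1) * C3) :=
    ⟨_, rfl⟩
  have hCT0 : 0 < CT := by rw [hCT]; positivity
  have hCD0 : 0 < CD := by rw [hCD]; positivity
  refine ⟨max CT CD, lt_of_lt_of_le hCT0 (le_max_left _ _), ?_⟩
  intro T m₁ m₂ w e A hT hw hm₁ hm₂ he hA
  have hK0 : 0 ≤ K := (abs_nonneg _).trans (hw.bd ⊤ ⊤ 0 0)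
  have hK1 : K ≤ |K| + 1 := by linarith [le_abs_self K]
  have hT0 : 0 < T := by linarith
  have hAn : 1 ≤ nm A := hnm1 A hA
  have hen : 1 ≤ nm e := hnm1 e he
  have heA : (e ^ 2 * A : Ideal (𝓞 k)) ≠ ⊥ := mul_ne_zero (pow_ne_zero 2 he) hA
  have heAn : 1 ≤ nm (e ^ 2 * A) := hnm1 _ heA
  have hn1 : 1 ≤ nS m₁ := nS_ge hnp m₁
  have hn2 : 1 ≤ nS m₂ := nS_ge hnp m₂
  obtain ⟨Z, hZ⟩ : ∃ Z : ℝ, Z = n * nS m₁ * nS m₂ := ⟨_, rfl⟩
  have hZ1 : 1 ≤ Z := by
    rw [hZ]
    exact one_le_mul_of_one_le_of_one_le (one_le_mul_of_one_le_of_one_le hn hn1) hn2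
  have hZ0 : 0 < Z := by linarith
  obtain ⟨Th, hTh⟩ : ∃ Th : ℝ, Th = T ^ ((dg k : ℝ) / 2) := ⟨_, rfl⟩
  have hTh0 : 0 < Th := by rw [hTh]; exact Real.rpow_pos_of_pos hT0 _
  obtain ⟨y, hy⟩ : ∃ y : ℝ, y = nm (e ^ 2 * A) / (Z * Th) := ⟨_, rfl⟩
  have hy0 : 0 < y := by rw [hy]; positivity
  obtain ⟨W, hW⟩ : ∃ W : ℝ, W = T * nm e * nm A := ⟨_, rfl⟩
  have hTA : T * nm A ≤ W := by
    rw [hW]
    have : T * nm A * 1 ≤ T * nm A * nm e :=
      mul_le_mul_of_nonneg_left hen (by positivity)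
    linarith
  have hTW : T ≤ W := by
    have : T * 1 ≤ T * nm A := mul_le_mul_of_nonneg_left hAn hT0.le
    linarith
  have hAW : nm A ≤ W := by
    have : 1 * nm A ≤ T * nm A := mul_le_mul_of_nonneg_right hT (by linarith)
    linarith
  have hW1 : 1 ≤ W := hT.trans hTW
  have hW0 : 0 < W := by linarith
  have hyB : 0 < (1 + y) ^ (-(B : ℝ)) := Real.rpow_pos_of_pos (by linarith) _
  -- the power of `T`
  have hTd : (nS m₁ * nS m₂) ^ 4 ≤ W ^ (8 * dg k) := by
    have a1 : nS m₁ * nS m₂ ≤ T ^ dg k * T ^ dg k :=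
      mul_le_mul hm₁ hm₂ (by linarith) (by positivity)
    calc (nS m₁ * nS m₂) ^ 4 ≤ (T ^ dg k * T ^ dg k) ^ 4 :=
          pow_le_pow_left₀ (by positivity) a1 4
      _ = T ^ (8 * dg k) := by rw [← pow_add, ← pow_mul]; congr 1; ring
      _ ≤ W ^ (8 * dg k) := pow_le_pow_left₀ hT0.le hTW _
  have hsq : 1 ≤ Real.sqrt (nm (e ^ 2 * A)) := by
    rw [Real.one_le_sqrt]; exact heAn
  have hZy : nm (e ^ 2 * A) / (n * nS m₁ * nS m₂ * T ^ ((dg k : ℝ) / 2)) = y := by
    rw [hy, hZ, hTh]
  rw [hZy, ← hW]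
  constructor
  · -- the terms of the sum
    intro D
    have hx0 : 0 < nm (e ^ 2 * A) * nm f / Z := by positivity
    -- each term
    have hterm : ∀ b : 𝓞 k, |G (fun v => em D v / T) *
        (wt f (n * nS m₁ * nS m₂) e A (em D) * w e A b (q4 (b ^ 2 + D)) *
          Nw f m₁ m₂ e A b (q4 (b ^ 2 + D)) * zf A f (em b) (em D))| ≤
        (|K| + 1) * W ^ (8 * dg k) * (C1 * (2 ^ j * W ^ j) * (1 + y) ^ (-(B : ℝ))) := by
      intro b
      obtain ⟨-, h3⟩ := h1 A (em b) T (nm (e ^ 2 * A) * nm f / Z) hA hT hx0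
      have h4 := h3.bd (em D) 0 (fun v => by simp)
      rw [iteratedDeriv_zero] at h4
      simp only [zero_smul, add_zero, pow_zero, div_one] at h4
      have h5 : wt f (n * nS m₁ * nS m₂) e A (em D) =
          Vk k (nm (e ^ 2 * A) * nm f / Z / sD (em D)) / Real.sqrt (nm (e ^ 2 * A)) := by
        unfold wt sd
        rw [← hZ]
        congr 2
        rw [mul_div_assoc', div_div_eq_mul_div, div_div]
      rw [h5]
      obtain ⟨X, hX⟩ : ∃ X : ℝ, X = G (fun v => em D v / T) *
        (Vk k (nm (e ^ 2 * A) * nm f / Z / sD (em D)) * zf A f (em b) (em D)) := ⟨_, rfl⟩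
      rw [← hX] at h4
      have h6 : G (fun v => em D v / T) *
          (Vk k (nm (e ^ 2 * A) * nm f / Z / sD (em D)) / Real.sqrt (nm (e ^ 2 * A)) *
            w e A b (q4 (b ^ 2 + D)) *
            Nw f m₁ m₂ e A b (q4 (b ^ 2 + D)) * zf A f (em b) (em D)) =
          X * (w e A b (q4 (b ^ 2 + D)) * Nw f m₁ m₂ e A b (q4 (b ^ 2 + D)) /
            Real.sqrt (nm (e ^ 2 * A))) := by
        rw [hX]; ring
      rw [h6, abs_mul]
      have h7 : |w e A b (q4 (b ^ 2 + D)) * Nw f m₁ m₂ e A b (q4 (b ^ 2 + D)) /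
            Real.sqrt (nm (e ^ 2 * A))| ≤ (|K| + 1) * W ^ (8 * dg k) := by
        rw [abs_div, abs_mul, abs_of_nonneg (Real.sqrt_nonneg _), Nat.abs_cast]
        have b1 : |w e A b (q4 (b ^ 2 + D))| ≤ |K| + 1 := (hw.bd _ _ _ _).trans hK1
        have b2 : (Nw f m₁ m₂ e A b (q4 (b ^ 2 + D)) : ℝ) ≤ W ^ (8 * dg k) :=
          (hNWB f m₁ m₂ e A b (q4 (b ^ 2 + D)) hf hA).1.trans hTd
        calc _ ≤ |w e A b (q4 (b ^ 2 + D))| * (Nw f m₁ m₂ e A b (q4 (b ^ 2 + D)) : ℝ) / 1 := by
              gcongr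
          _ ≤ _ := by
              rw [div_one]
              exact mul_le_mul b1 b2 (Nat.cast_nonneg _) (by positivity)
      have h8 : |X| ≤ C1 * (2 ^ j * W ^ j) * (1 + y) ^ (-(B : ℝ)) := by
        refine h4.trans ?_
        have b1 : nm A + T ≤ 2 * W := by
          linarith
        have b2 : (nm A + T) ^ j ≤ 2 ^ j * W ^ j := by
          rw [← mul_pow]
          exact pow_le_pow_left₀ (by linarith) b1 j
        have b3 : y ≤ nm (e ^ 2 * A) * nm f / Z / T ^ ((dg k : ℝ) / 2) := by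
          rw [← hTh, hy, div_div]
          exact div_le_div_of_nonneg_right (le_mul_of_one_le_right (by linarith) hfn)
            (by positivity)
        have b4 : (1 + nm (e ^ 2 * A) * nm f / Z / T ^ ((dg k : ℝ) / 2)) ^ (-(B : ℝ)) ≤
            (1 + y) ^ (-(B : ℝ)) := rpow_anti B (by linarith) (by linarith)
        have b5 : 0 ≤ (nm A + T) ^ j := by positivity
        calc C1 * (nm A + T) ^ j *
              (1 + nm (e ^ 2 * A) * nm f / Z / T ^ ((dg k : ℝ) / 2)) ^ (-(B : ℝ)) ≤
              C1 * (nm A + T) ^ j * (1 + y) ^ (-(B : ℝ)) :=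
              mul_le_mul_of_nonneg_left b4 (by positivity)
          _ ≤ _ := by gcongr
      calc |X| * _ ≤ (C1 * (2 ^ j * W ^ j) * (1 + y) ^ (-(B : ℝ))) *
            ((|K| + 1) * W ^ (8 * dg k)) :=
            mul_le_mul h8 h7 (abs_nonneg _) (by positivity)
        _ = _ := by ring
    -- the number of the terms
    have hni : (ni k 2 : Ideal (𝓞 k)) ≠ ⊥ := by
      intro h
      have h3 := hnmni 2
      rw [h] at h3
      have h4 : nm (⊥ : Ideal (𝓞 k)) = 0 := by
        unfold nm
        rw [Ideal.absNorm_bot]; simp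
      rw [h4] at h3
      have : (0 : ℝ) < ((2 : ℕ) : ℝ) ^ dg k := by positivity
      linarith
    have hcardb : ((bs f A D).card : ℝ) ≤ 2 ^ dg k * W := by
      have h3 : (ni k 2 * A : Ideal (𝓞 k)) ≠ ⊥ := mul_ne_zero hni hA
      obtain ⟨-, h4, -⟩ := hRSF (ni k 2 * A) f h3 hf
        ((Rs ((ni k 2 * A) * f)).filter (fun b => b ∈ f)) (fun x => Finset.mem_filter)
      have h5 : bs f A D ⊆ (Rs ((ni k 2 * A) * f)).filter (fun b => b ∈ f) := by
        intro b hb
        unfold bs at hb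
        rw [Finset.mem_filter] at hb ⊢
        rw [mul_assoc]
        exact ⟨hb.1, hb.2.1⟩
      calc ((bs f A D).card : ℝ) ≤ (((Rs ((ni k 2 * A) * f)).filter (fun b => b ∈ f)).card : ℝ) :=
            by exact_mod_cast Finset.card_le_card h5
        _ = nm (ni k 2 * A) := h4
        _ = 2 ^ dg k * nm A := by rw [hnmul, hnmni]; norm_num
        _ ≤ 2 ^ dg k * W := by gcongr
    unfold Tm
    rw [Finset.mul_sum]
    calc |∑ b ∈ bs f A D, _| ≤ ∑ b ∈ bs f A D, |G (fun v => em D v / T) *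
        (wt f (n * nS m₁ * nS m₂) e A (em D) * w e A b (q4 (b ^ 2 + D)) *
          Nw f m₁ m₂ e A b (q4 (b ^ 2 + D)) * zf A f (em b) (em D))| :=
          Finset.abs_sum_le_sum_abs _ _
      _ ≤ ∑ b ∈ bs f A D,
          (|K| + 1) * W ^ (8 * dg k) * (C1 * (2 ^ j * W ^ j) * (1 + y) ^ (-(B : ℝ))) :=
          Finset.sum_le_sum fun b _ => hterm b
      _ = (bs f A D).card *
          ((|K| + 1) * W ^ (8 * dg k) * (C1 * (2 ^ j * W ^ j) * (1 + y) ^ (-(B : ℝ)))) := by
          rw [Finset.sum_const, nsmul_eq_mul]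
      _ ≤ (2 ^ dg k * W) *
          ((|K| + 1) * W ^ (8 * dg k) * (C1 * (2 ^ j * W ^ j) * (1 + y) ^ (-(B : ℝ)))) :=
          mul_le_mul_of_nonneg_right hcardb (by positivity)
      _ = CT * W ^ (j + 8 * dg k + 1) * (1 + y) ^ (-(B : ℝ)) := by
          rw [hCT, pow_add, pow_add, pow_one]; ring
      _ ≤ max CT CD * W ^ (j + 8 * dg k + 1) * (1 + y) ^ (-(B : ℝ)) := by
          have := le_max_left CT CD
          gcongr
  · -- the density
    intro d
    unfold Dm
    by_cases hd : ∃ v, d v / T ∉ Icc η (1 / η)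
    · rw [hG.supp _ hd, zero_mul, abs_zero]
      have : 0 < max CT CD := lt_of_lt_of_le hCT0 (le_max_left _ _)
      positivity
    · push Not at hd
      have hlo : ∀ v, η * T ≤ d v := fun v => by
        have := (hd v).1
        rwa [le_div_iff₀ hT0] at this
      have hhi : ∀ v, d v ≤ T / η := fun v => by
        have := (hd v).2
        rw [div_le_iff₀ hT0] at this
        calc d v ≤ 1 / η * T := this
          _ = T / η := by ring
      have hdp : ∀ v, 0 < d v := fun v => lt_of_lt_of_le (mul_pos hη hT0) (hlo v)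
      have hpl : (η * T) ^ dg k ≤ ∏ v, d v := by
        rw [← hcard]
        calc (η * T) ^ Fintype.card (Pl k) = ∏ _v : Pl k, (η * T) := by
              rw [Finset.prod_const, Finset.card_univ]
          _ ≤ ∏ v, d v := Finset.prod_le_prod (fun _ _ => by positivity) (fun v _ => hlo v)
      have hph : ∏ v, d v ≤ (T / η) ^ dg k := by
        rw [← hcard]
        calc ∏ v, d v ≤ ∏ _v : Pl k, (T / η) :=
              Finset.prod_le_prod (fun v _ => (hdp v).le) (fun v _ => hhi v)
          _ = (T / η) ^ Fintype.card (Pl k) := by rw [Finset.prod_const, Finset.card_univ]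
      have hpp : 0 < ∏ v, d v := Finset.prod_pos fun v _ => hdp v
      have hsD0 : 0 < sD d := Real.sqrt_pos.2 hpp
      -- square roots
      have hThs : Real.sqrt (T ^ dg k) = Th := by
        rw [hTh, Real.sqrt_eq_rpow, ← Real.rpow_natCast T, ← Real.rpow_mul hT0.le]
        congr 1
        ring
      have hsDh : sD d ≤ Th / Real.sqrt (η ^ dg k) := by
        unfold sD
        rw [← hThs, ← Real.sqrt_div' _ (by positivity), ← div_pow]
        exact Real.sqrt_le_sqrt hph
      -- the logarithm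
      have hlog : |Real.log (sD d)| ≤ dg k * (Real.log T + |Real.log η|) := by
        have b1 : Real.log (sD d) = Real.log (∏ v, d v) / 2 := by
          unfold sD
          rw [Real.log_sqrt hpp.le]
        have b2 : Real.log (∏ v, d v) ≤ dg k * (Real.log T - Real.log η) := by
          calc Real.log (∏ v, d v) ≤ Real.log ((T / η) ^ dg k) := Real.log_le_log hpp hph
            _ = _ := by rw [Real.log_pow, Real.log_div hT0.ne' hη.ne']
        have b3 : dg k * (Real.log η + Real.log T) ≤ Real.log (∏ v, d v) := by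
          calc _ = Real.log ((η * T) ^ dg k) := by
                rw [Real.log_pow, Real.log_mul hη.ne' hT0.ne']
            _ ≤ Real.log (∏ v, d v) := Real.log_le_log (by positivity) hpl
        have b4 : 0 ≤ Real.log T := Real.log_nonneg hT
        have b5 : (0 : ℝ) ≤ dg k := Nat.cast_nonneg _
        have b6 := neg_abs_le (Real.log η)
        have b7 := le_abs_self (Real.log η)
        have b8 : (dg k : ℝ) * (Real.log T - Real.log η) ≤
            dg k * (Real.log T + |Real.log η|) := by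
          apply mul_le_mul_of_nonneg_left _ b5; linarith
        have b9 : -(dg k * (Real.log T + |Real.log η|)) ≤
            (dg k : ℝ) * (Real.log η + Real.log T) := by
          have : (dg k : ℝ) * (-(Real.log T + |Real.log η|)) ≤
              dg k * (Real.log η + Real.log T) := by
            apply mul_le_mul_of_nonneg_left _ b5; linarith
          linarith
        have b10 : 0 ≤ (dg k : ℝ) * (Real.log T + |Real.log η|) := by positivity
        rw [b1, abs_le]
        constructor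
        · linarith
        · linarith
      have hct : |ct A f d| ≤ (|kp k| + 1) * C3 * W := by
        unfold ct
        rw [abs_div, abs_mul, abs_of_nonneg (Real.sqrt_nonneg _)]
        have b1 : |Real.log (sD d / (nm f * nm A)) + c0 k| ≤ C3 * W := by
          have c1 : Real.log (sD d / (nm f * nm A)) =
              Real.log (sD d) - (Real.log (nm f) + Real.log (nm A)) := by
            rw [Real.log_div hsD0.ne' (by positivity), Real.log_mul (by positivity) (by positivity)]
          have c2 : Real.log T ≤ W := (Real.log_le_self hT0.le).trans hTW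
          have c3 : Real.log (nm A) ≤ W := (Real.log_le_self (by linarith)).trans hAW
          have c4 : 0 ≤ Real.log (nm f) := Real.log_nonneg hfn
          have c5 : 0 ≤ Real.log (nm A) := Real.log_nonneg hAn
          have c6 := abs_nonneg (c0 k)
          have c7 := abs_nonneg (Real.log η)
          have c8 : (0 : ℝ) ≤ dg k := Nat.cast_nonneg _
          have c9 : |Real.log (sD d)| + Real.log (nm f) + Real.log (nm A) + |c0 k| ≤ C3 * W := by
            have d1 : |Real.log (sD d)| ≤ dg k * W + dg k * |Real.log η| * W := by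
              calc |Real.log (sD d)| ≤ dg k * (Real.log T + |Real.log η|) := hlog
                _ ≤ dg k * (W + |Real.log η| * W) :=
                    mul_le_mul_of_nonneg_left
                      (add_le_add c2 (le_mul_of_one_le_right c7 hW1)) c8
                _ = _ := by ring
            have d2 : Real.log (nm f) ≤ Real.log (nm f) * W := le_mul_of_one_le_right c4 hW1
            have d3 : |c0 k| ≤ |c0 k| * W := le_mul_of_one_le_right c6 hW1
            have d4 : C3 * W = dg k * W + dg k * |Real.log η| * W + Real.log (nm f) * W + W +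
                |c0 k| * W := by rw [hC3]; ring
            rw [d4]
            linarith
          rw [c1]
          calc |Real.log (sD d) - (Real.log (nm f) + Real.log (nm A)) + c0 k| ≤
                |Real.log (sD d) - (Real.log (nm f) + Real.log (nm A))| + |c0 k| := abs_add_le _ _
            _ ≤ |Real.log (sD d)| + |Real.log (nm f) + Real.log (nm A)| + |c0 k| := by
                have := abs_sub (Real.log (sD d)) (Real.log (nm f) + Real.log (nm A))
                linarith
            _ ≤ C3 * W := by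
                rw [abs_of_nonneg (by linarith : 0 ≤ Real.log (nm f) + Real.log (nm A))]
                linarith
        have b2 : 1 ≤ Real.sqrt (nm A) := by rw [Real.one_le_sqrt]; exact hAn
        calc |kp k| * |Real.log (sD d / (nm f * nm A)) + c0 k| / Real.sqrt (nm A) ≤
              |kp k| * |Real.log (sD d / (nm f * nm A)) + c0 k| / 1 := by gcongr
          _ = |kp k| * |Real.log (sD d / (nm f * nm A)) + c0 k| := div_one _
          _ ≤ (|kp k| + 1) * (C3 * W) :=
              mul_le_mul (by linarith) b1 (abs_nonneg _) (by positivity)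
          _ = _ := by ring
      -- the cut-off function
      have hwt : |wt f (n * nS m₁ * nS m₂) e A d| ≤ C2 * c ^ (-(B : ℝ)) * (1 + y) ^ (-(B : ℝ)) := by
        unfold wt sd
        rw [← hZ, abs_div, abs_of_nonneg (Real.sqrt_nonneg _)]
        have hx : 0 < nm (e ^ 2 * A) / (Z * (sD d / nm f)) := by positivity
        have b1 := (h2 _ hx).1
        have b2 : c * y ≤ nm (e ^ 2 * A) / (Z * (sD d / nm f)) := by
          have d1 : c ≤ Real.sqrt (η ^ dg k) := by rw [hc]; exact min_le_right _ _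
          have d2 : 0 < Real.sqrt (η ^ dg k) := Real.sqrt_pos.2 (pow_pos hη _)
          have d3 : sD d / nm f ≤ Th / Real.sqrt (η ^ dg k) := by
            rw [div_le_iff₀ (by linarith)]
            calc sD d ≤ Th / Real.sqrt (η ^ dg k) := hsDh
              _ ≤ Th / Real.sqrt (η ^ dg k) * nm f :=
                  le_mul_of_one_le_right (by positivity) hfn
          calc c * y ≤ Real.sqrt (η ^ dg k) * y := by gcongr
            _ = nm (e ^ 2 * A) / (Z * (Th / Real.sqrt (η ^ dg k))) := by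
                rw [hy]; field_simp
            _ ≤ _ := by gcongr
        have b3 : c * (1 + y) ≤ 1 + nm (e ^ 2 * A) / (Z * (sD d / nm f)) := by
          have : c ≤ 1 := by rw [hc]; exact min_le_left _ _
          linarith
        have b4 : (1 + nm (e ^ 2 * A) / (Z * (sD d / nm f))) ^ (-(B : ℝ)) ≤
            c ^ (-(B : ℝ)) * (1 + y) ^ (-(B : ℝ)) := by
          rw [← Real.mul_rpow hc0.le (by linarith)]
          exact rpow_anti B (by positivity) b3
        calc |Vk k (nm (e ^ 2 * A) / (Z * (sD d / nm f)))| / Real.sqrt (nm (e ^ 2 * A)) ≤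
              |Vk k (nm (e ^ 2 * A) / (Z * (sD d / nm f)))| / 1 := by gcongr
          _ = |Vk k (nm (e ^ 2 * A) / (Z * (sD d / nm f)))| := div_one _
          _ ≤ C2 * (1 + nm (e ^ 2 * A) / (Z * (sD d / nm f))) ^ (-(B : ℝ)) := b1
          _ ≤ C2 * (c ^ (-(B : ℝ)) * (1 + y) ^ (-(B : ℝ))) := by gcongr
          _ = _ := by ring
      obtain ⟨-, hNb0, hNb1⟩ := hNWB f m₁ m₂ e A 0 0 hf hA
      obtain ⟨-, -, hwb⟩ := hWTB f q K w e A hf hq hA hw
      have hNb : |Nb m₁ m₂ e A| ≤ W ^ (8 * dg k) := by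
        rw [abs_of_nonneg hNb0]; exact hNb1.trans hTd
      rw [abs_mul, abs_mul, abs_mul, abs_mul]
      have hcB : 0 < c ^ (-(B : ℝ)) := Real.rpow_pos_of_pos hc0 _
      have s1 : |wt f (n * nS m₁ * nS m₂) e A d| * |wbar f q w e A| ≤
          (C2 * c ^ (-(B : ℝ)) * (1 + y) ^ (-(B : ℝ))) * (|K| + 1) :=
        mul_le_mul hwt (hwb.trans hK1) (abs_nonneg _) (by positivity)
      have s2 : |wt f (n * nS m₁ * nS m₂) e A d| * |wbar f q w e A| * |Nb m₁ m₂ e A| ≤
          (C2 * c ^ (-(B : ℝ)) * (1 + y) ^ (-(B : ℝ))) * (|K| + 1) * W ^ (8 * dg k) :=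
        mul_le_mul s1 hNb (abs_nonneg _) (by positivity)
      have s3 : |wt f (n * nS m₁ * nS m₂) e A d| * |wbar f q w e A| * |Nb m₁ m₂ e A| *
          |ct A f d| ≤ (C2 * c ^ (-(B : ℝ)) * (1 + y) ^ (-(B : ℝ))) * (|K| + 1) *
            W ^ (8 * dg k) * ((|kp k| + 1) * C3 * W) :=
        mul_le_mul s2 hct (abs_nonneg _) (by positivity)
      have s4 := mul_le_mul (hGb (fun v => d v / T)) s3 (by positivity) hCG.le
      refine s4.trans ?_
      have s5 : W ^ (8 * dg k + 1) ≤ W ^ (j + 8 * dg k + 1) :=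
        pow_le_pow_right₀ hW1 (by omega)
      calc _ = CD * W ^ (8 * dg k + 1) * (1 + y) ^ (-(B : ℝ)) := by
            rw [hCD, pow_succ]; ring
        _ ≤ CD * W ^ (j + 8 * dg k + 1) * (1 + y) ^ (-(B : ℝ)) := by gcongr
        _ ≤ max CT CD * W ^ (j + 8 * dg k + 1) * (1 + y) ^ (-(B : ℝ)) := by
            have := le_max_right CT CD
            gcongr

end Pool.Agent.H46.NVP_TAD
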